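import Pool.Agent.H22.CT7

namespace Pool.Agent.Results.MP_09c861_lc.Pair

open Pool.Agent.H36.Par Pool.Agent.H22.CT

/-- For `H₁ = K_{1,4}` and `H₂ = K₃ + K₁`, both single contraction problems are W[2]-hard while
the problem for the pair is fixed-parameter tractable. -/
theorem result : W2Hard (Con₁ star4) ∧ W2Hard (Con₁ triK1) ∧
    FPTOn (fun _ => True) (Con₂ star4 triK1) kOf :=
  ⟨hard_star, hard_tri, fpt_pair⟩

end Pool.Agent.Results.MP_09c861_lc.Pair
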